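import Pool.Agent.H47.B0.M04

/-!
# Strict convexity of the alpha function and electromagnetic Lagrangians on the torus

For the Lagrangians `L(x, v) = K(v) + A(x) · v - V(x)` on `𝕋ⁿ`, for every `n`, strict convexity of
Mather's alpha function forces `A` to be a closed 1-form and `V` to be constant, and then all the
Aubry sets are equal to `𝕋ⁿ`.
-/

set_option autoImplicit false

open Set
open scoped RealInnerProductSpace

namespace Pool.Agent.Results.MP_34810b_an.Electromagnetic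

open Pool.Agent.H33.AM

theorem result {n : ℕ} (K : E n → ℝ) (A : E n → E n) (V : E n → ℝ) (κ₁ κ₂ : ℝ)
    (hκ : 0 < κ₁)
    (hlo : ∀ v w, κ₁ / 2 * ‖w - v‖ ^ 2 ≤ K w - K v - ⟪gradient K v, w - v⟫)
    (hhi : ∀ v w, K w - K v - ⟪gradient K v, w - v⟫ ≤ κ₂ / 2 * ‖w - v‖ ^ 2)
    (hA : ContDiff ℝ 2 A) (hV : ContDiff ℝ 2 V)
    (hAper : ∀ x y, pr x = pr y → A x = A y) (hVper : ∀ x y, pr x = pr y → V x = V y)
    (hα : StrictConvexOn ℝ univ (alpha fun x v _ => K v + ⟪A x, v⟫ - V x)) :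
    (∀ x y, V x = V y) ∧ (∀ x v w, ⟪fderiv ℝ A x v, w⟫ = ⟪fderiv ℝ A x w, v⟫) ∧
      ∀ c, aubry (fun x v _ => K v + ⟪A x, v⟫ - V x) c = univ := by
  have hK : HK K (gradient K) κ₁ (max κ₂ 1) := by
    refine ⟨hκ, lt_of_lt_of_le one_pos (le_max_right _ _), hlo, fun v w => (hhi v w).trans ?_⟩
    exact mul_le_mul_of_nonneg_right (by linarith [le_max_left κ₂ 1]) (by positivity)
  exact main K A V hK hA hV hAper hVper hα

end Pool.Agent.Results.MP_34810b_an.Electromagnetic
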