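import Pool.Agent.H99.EA.Mai
import Pool.Agent.H68.TG.Mn
import Pool.Agent.H68.TM.Al

/-!
# Every Aubry set is large

If Mather's alpha function is `C²` with positive definite Hessian, or if it only has two-sided quadratic bounds at
`c`, then the Aubry set of `c` has lower box dimension at least `n / (n + 1)`, and at least `1` if the rotation vector
is resonant. If moreover the Lagrangian is autonomous and the rotation vector is not zero: at least `2 - 1 / n`, and at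
least `2` if it is resonant.
-/

set_option autoImplicit false

open MeasureTheory Filter
open scoped RealInnerProductSpace Topology

namespace Pool.Agent.Results.MP_34810b_an.EveryAubrySet

open Pool.Agent.H33.AM (E Tor alpha aubry)
open Pool.Agent.H68.HDA (Aut)
open Pool.Agent.H68.TG (Ton)

/-- The integer vector `z` as an element of `ℝⁿ`. -/
noncomputable abbrev iv {n : ℕ} (z : Fin n → ℤ) : E n := WithLp.toLp 2 fun i => (z i : ℝ)

/-- The least number of closed balls of radius `ε` which cover `A`, a subset of the torus. -/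
noncomputable def cov {n : ℕ} (A : Set (Tor n)) (ε : ℝ) : ℕ :=
  sInf {m | ∃ F : Finset (Tor n), F.card = m ∧ ∀ x ∈ A, ∃ v ∈ F, dist x v ≤ ε}

/-- The lower box dimension: `liminf log N(ε) / log (1/ε)` as `ε → 0`. -/
noncomputable def lowerBox {n : ℕ} (A : Set (Tor n)) : EReal :=
  liminf (fun ε : ℝ => ((Real.log (cov A ε) / Real.log (1 / ε) : ℝ) : EReal)) (𝓝[>] 0)

/-- `A` has a quadratic lower and a quadratic upper bound at `c`, with the slope `h`. -/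
def Pinch {n : ℕ} (A : E n → ℝ) (c h : E n) : Prop :=
  ∃ κ' K' p₀ : ℝ, 0 < κ' ∧ 0 < K' ∧ 0 < p₀ ∧ ∀ p, ‖p‖ ≤ p₀ →
    κ' * ‖p‖ ^ 2 ≤ A (c + p) - A c - ⟪h, p⟫ ∧ A (c + p) - A c - ⟪h, p⟫ ≤ K' * ‖p‖ ^ 2

private theorem cov_spec {n : ℕ} (A : Set (Tor n)) {ε : ℝ} (hε : 0 < ε) :
    ∃ F : Finset (Tor n), F.card = cov A ε ∧ ∀ x ∈ A, ∃ v ∈ F, dist x v ≤ ε := by
  have h : {m | ∃ F : Finset (Tor n), F.card = m ∧ ∀ x ∈ A, ∃ v ∈ F, dist x v ≤ ε}.Nonempty := by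
    obtain ⟨t, -, ht, hc⟩ := (isCompact_univ : IsCompact (Set.univ : Set (Tor n))).finite_cover_balls hε
    refine ⟨_, ht.toFinset, rfl, fun x _ => ?_⟩
    obtain ⟨v, hv, hx⟩ := Set.mem_iUnion₂.1 (hc (Set.mem_univ x))
    exact ⟨v, ht.mem_toFinset.2 hv, (Metric.mem_ball.1 hx).le⟩
  exact Nat.sInf_mem h

private theorem box_of {n : ℕ} {A : Set (Tor n)} {a b : ℕ} (ha : 0 < a) {c₁ ε₀ : ℝ} (hc₁ : 0 < c₁)
    (hε₀ : 0 < ε₀) (h : ∀ ε : ℝ, 0 < ε → ε ≤ ε₀ → c₁ ≤ (cov A ε : ℝ) ^ a * ε ^ b) :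
    (((b : ℝ) / a : ℝ) : EReal) ≤ lowerBox A := by
  have ha0 : (0 : ℝ) < a := by exact_mod_cast ha
  have hlog : Tendsto (fun ε : ℝ => Real.log (1 / ε)) (𝓝[>] 0) atTop := by
    have h0 : Tendsto (fun ε : ℝ => 1 / ε) (𝓝[>] 0) atTop := by
      simp only [one_div]
      exact tendsto_inv_nhdsGT_zero
    exact Real.tendsto_log_atTop.comp h0
  have h1 : Tendsto (fun ε : ℝ => (b : ℝ) / a + Real.log c₁ / a / Real.log (1 / ε)) (𝓝[>] 0)
      (𝓝 ((b : ℝ) / a)) := by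
    have h2 := (hlog.const_div_atTop (Real.log c₁ / a)).const_add ((b : ℝ) / a)
    rw [add_zero] at h2
    exact h2
  have h3 : Tendsto (fun ε : ℝ => (((b : ℝ) / a + Real.log c₁ / a / Real.log (1 / ε) : ℝ) : EReal))
      (𝓝[>] 0) (𝓝 (((b : ℝ) / a : ℝ) : EReal)) := EReal.tendsto_coe.2 h1
  rw [← h3.liminf_eq]
  refine liminf_le_liminf ?_
  have h4 : ∀ᶠ ε : ℝ in 𝓝[>] 0, ε < min ε₀ 1 :=
    (eventually_lt_nhds (lt_min hε₀ one_pos)).filter_mono nhdsWithin_le_nhds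
  filter_upwards [h4, self_mem_nhdsWithin] with ε hε hε0
  have hε0' : (0 : ℝ) < ε := hε0
  have hε1 : ε < 1 := hε.trans_le (min_le_right _ _)
  have h5 := h ε hε0' (hε.le.trans (min_le_left _ _))
  have h6 : 0 < Real.log (1 / ε) := Real.log_pos (by rw [lt_div_iff₀ hε0']; linarith)
  have hN : (0 : ℝ) < cov A ε := by
    rcases Nat.eq_zero_or_pos (cov A ε) with h7 | h7
    · rw [h7, Nat.cast_zero, zero_pow ha.ne', zero_mul] at h5
      linarith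
    · exact_mod_cast h7
  have h8 : Real.log c₁ ≤ a * Real.log (cov A ε) - b * Real.log (1 / ε) := by
    have h9 := Real.log_le_log hc₁ h5
    rw [Real.log_mul (by positivity) (by positivity), Real.log_pow, Real.log_pow] at h9
    rw [one_div, Real.log_inv]
    linarith
  rw [EReal.coe_le_coe_iff, div_add_div _ _ ha0.ne' h6.ne', div_le_div_iff₀ (by positivity) h6]
  have h10 : (b : ℝ) * Real.log (1 / ε) + a * (Real.log c₁ / a) ≤ a * Real.log (cov A ε) := by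
    rw [mul_div_cancel₀ _ ha0.ne']
    linarith
  nlinarith

theorem result {n : ℕ} (hn : 0 < n) (L : E n → E n → ℝ → ℝ) (hL : Ton L) :
    (∀ c h : E n, Pinch (alpha L) c h →
      ((n / (n + 1) : ℝ) : EReal) ≤ lowerBox (aubry L c) ∧
      (∀ (ζ : Fin n → ℤ) (m : ℤ), ζ ≠ 0 → ⟪iv ζ, h⟫ = m → 1 ≤ lowerBox (aubry L c)) ∧
      (Aut L → h ≠ 0 → ((2 - 1 / n : ℝ) : EReal) ≤ lowerBox (aubry L c) ∧
        ∀ ζ : Fin n → ℤ, ζ ≠ 0 → ⟪iv ζ, h⟫ = 0 → 2 ≤ lowerBox (aubry L c))) ∧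
    (∀ c h : E n, Pinch (alpha L) c h →
      ∃ c₁ ε₀ : ℝ, 0 < c₁ ∧ 0 < ε₀ ∧ ∀ ε : ℝ, 0 < ε → ε ≤ ε₀ →
        c₁ ≤ (cov (aubry L c) ε : ℝ) ^ (n + 1) * ε ^ n ∧
        (∀ (ζ : Fin n → ℤ) (m : ℤ), ζ ≠ 0 → ⟪iv ζ, h⟫ = m →
          c₁ ≤ ‖iv ζ‖ * (cov (aubry L c) ε * ε)) ∧
        (Aut L → h ≠ 0 → c₁ ≤ (cov (aubry L c) ε : ℝ) ^ n * ε ^ (2 * n - 1) ∧
          ∀ ζ : Fin n → ℤ, ζ ≠ 0 → ⟪iv ζ, h⟫ = 0 →
            c₁ ≤ ‖iv ζ‖ * (cov (aubry L c) ε * ε ^ 2))) ∧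
    (ContDiff ℝ 2 (alpha L) → (∀ c p : E n, p ≠ 0 → 0 < fderiv ℝ (fderiv ℝ (alpha L)) c p p) →
      ∀ c : E n, Pinch (alpha L) c (gradient (alpha L) c)) := by
  have e1 : alpha L = Pool.Agent.H68.HD.alpha L := funext (Pool.Agent.H68.TM.alpha_eq hL)
  have e2 : aubry L = Pool.Agent.H68.HD.aubry L := funext (Pool.Agent.H68.TM.aubry_eq hL)
  rw [e1, e2]
  have key : ∀ c h : E n, Pinch (Pool.Agent.H68.HD.alpha L) c h → ∃ c₁ ε₀ : ℝ, 0 < c₁ ∧ 0 < ε₀ ∧ ∀ ε : ℝ, 0 < ε →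
      ε ≤ ε₀ → Pool.Agent.H99.EA.Bnd L h c₁ (cov (Pool.Agent.H68.HD.aubry L c) ε) ε := by
    rintro c h ⟨κ', K', p₀, hκ', -, hp₀, hq⟩
    obtain ⟨L', κ, K, hG, hA, heq⟩ := Pool.Agent.H68.TG.transfer' hL (‖c‖ + 1)
    have hq' : ∀ p, ‖p‖ ≤ min p₀ 1 → κ' * ‖p‖ ^ 2 ≤ Pool.Agent.H68.HD.alpha L' (c + p) -
          Pool.Agent.H68.HD.alpha L' c - ⟪h, p⟫ ∧
        Pool.Agent.H68.HD.alpha L' (c + p) - Pool.Agent.H68.HD.alpha L' c - ⟪h, p⟫ ≤
          K' * ‖p‖ ^ 2 := by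
      intro p hp
      rw [← (heq c (by linarith)).1, ← (heq (c + p)
        (Pool.Agent.H68.TO.norm_add_le_of le_rfl hp)).1]
      exact hq p (hp.trans (min_le_left _ _))
    obtain ⟨c₁, ε₀, hc₁, hε₀, hb⟩ := Pool.Agent.H99.EA.local_all hn hG hκ'
      (lt_min hp₀ one_pos) (fun p hp => (hq' p hp).1) (fun p hp => (hq' p hp).2)
    rw [(heq c (by linarith)).2]
    refine ⟨c₁, ε₀, hc₁, hε₀, fun ε hε hε' => ?_⟩
    obtain ⟨F, hF, hF'⟩ := cov_spec (Pool.Agent.H68.HD.aubry L' c) hε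
    rw [← hF]
    obtain ⟨hb1, hb2, hb3⟩ := hb ε hε hε' F hF'
    exact ⟨hb1, hb2, fun ha hh => hb3 (hA ha) hh⟩
  refine ⟨fun c h hp => ?_, fun c h hp => key c h hp, fun h2 hpos c => ?_⟩
  · obtain ⟨c₁, ε₀, hc₁, hε₀, hcov⟩ := key c h hp
    have hζ0 : ∀ ζ : Fin n → ℤ, ζ ≠ 0 → 0 < ‖(iv ζ : E n)‖ := by
      intro ζ hζ
      rw [norm_pos_iff]
      intro h
      apply hζ
      funext i
      have h1 := congrArg (fun v : E n => v i) h
      simpa [iv] using h1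
    refine ⟨?_, fun ζ m hζ hm => ?_, fun ha hh => ⟨?_, fun ζ hζ hm => ?_⟩⟩
    · have h3 := box_of (A := Pool.Agent.H68.HD.aubry L c) (a := n + 1) (b := n) n.succ_pos hc₁ hε₀
        fun ε hε hε' => (hcov ε hε hε').1
      push_cast at h3
      exact_mod_cast h3
    · have h0 := hζ0 ζ hζ
      have h3 := box_of (A := Pool.Agent.H68.HD.aubry L c) (a := 1) (b := 1) one_pos (c₁ := c₁ / ‖(iv ζ : E n)‖)
        (by positivity) hε₀ fun ε hε hε' => by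
          rw [pow_one, pow_one, div_le_iff₀ h0]
          have h4 : c₁ ≤ ‖iv ζ‖ * (cov (Pool.Agent.H68.HD.aubry L c) ε * ε) := (hcov ε hε hε').2.1 ζ m hζ hm
          linarith
      rw [Nat.cast_one, div_one] at h3
      exact_mod_cast h3
    · have h3 := box_of (A := Pool.Agent.H68.HD.aubry L c) (a := n) (b := 2 * n - 1) hn hc₁ hε₀
        fun ε hε hε' => ((hcov ε hε hε').2.2 ha hh).1
      have hn0 : (0 : ℝ) < n := by exact_mod_cast hn
      have h4 : (((2 * n - 1 : ℕ) : ℝ) / n) = 2 - 1 / n := by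
        rw [Nat.cast_sub (by omega)]
        push_cast
        field_simp
      rw [h4] at h3
      exact h3
    · have h0 := hζ0 ζ hζ
      have h3 := box_of (A := Pool.Agent.H68.HD.aubry L c) (a := 1) (b := 2) one_pos (c₁ := c₁ / ‖(iv ζ : E n)‖)
        (by positivity) hε₀ fun ε hε hε' => by
          rw [pow_one, div_le_iff₀ h0]
          have h4 : c₁ ≤ ‖iv ζ‖ * (cov (Pool.Agent.H68.HD.aubry L c) ε * ε ^ 2) :=
            ((hcov ε hε hε').2.2 ha hh).2 ζ hζ hm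
          linarith
      rw [Nat.cast_one, div_one] at h3
      exact_mod_cast h3
  · obtain ⟨K', hK', hup⟩ := Pool.Agent.H68.HD.quad_upper h2 c
    obtain ⟨κ', p₀, hκ', hp₀, hlo⟩ := Pool.Agent.H99.EC.quad_lower h2 c (hpos c)
    refine ⟨κ', K', min p₀ 1, hκ', hK', lt_min hp₀ one_pos, fun p hp => ⟨?_, ?_⟩⟩
    · exact hlo p (hp.trans (min_le_left _ _))
    · have := hup p (hp.trans (min_le_right _ _))
      linarith

end Pool.Agent.Results.MP_34810b_an.EveryAubrySet
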