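import Pool.Agent.H68.TM.Al
import Pool.Agent.H68.TG.Tr

/-!
# Hausdorff dimension of Aubry sets

For almost every cohomology class `c` at which Mather's alpha function has two-sided quadratic bounds (all `c`
if `α` is `C²` with positive definite Hessian) the Aubry set has Hausdorff dimension at least `2 n / (n + 2)`, and
at least `(3 n - 1) / (n + 1)` if the Lagrangian is autonomous and `n ≥ 2`. For single `c`: a quadratic upper
bound of `α` at `c` and a Diophantine subgradient are enough.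
-/

set_option autoImplicit false

open MeasureTheory
open scoped RealInnerProductSpace

namespace Pool.Agent.Results.MP_34810b_an.HausdorffDimension

open Pool.Agent.H33.AM (E alpha aubry)
open Pool.Agent.H68.HD (Growth)
open Pool.Agent.H68.HDA (Aut Pinched)
open Pool.Agent.H68.TG (Ton)

/-- The integer vector `z` as an element of `ℝⁿ`. -/
noncomputable abbrev iv {n : ℕ} (z : Fin n → ℤ) : E n := WithLp.toLp 2 fun i => (z i : ℝ)

/-- Near `c` the function `f` is at most `f(c) + h · p + K' |p|²`. -/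
def QuadAbove {n : ℕ} (f : E n → ℝ) (c h : E n) (K' p₀ : ℝ) : Prop :=
  ∀ p, ‖p‖ ≤ p₀ → f (c + p) ≤ f c + ⟪h, p⟫ + K' * ‖p‖ ^ 2

/-- The vector `h` is Diophantine. -/
def Dioph {n : ℕ} (h : E n) (γ τ : ℝ) : Prop :=
  ∀ (k : ℕ) (z : Fin n → ℤ), 0 < k → γ * (k : ℝ) ^ (-τ) ≤ ‖iv z - (k : ℝ) • h‖

/-- The half-line `T h`, `T ≥ 0`, is Diophantine. -/
def DiophLine {n : ℕ} (h : E n) (γ τ : ℝ) : Prop :=
  γ ≤ ‖h‖ ∧
  (∀ (T : ℝ) (z : Fin n → ℤ), z ≠ 0 → 1 ≤ T → γ * T ^ (-τ) ≤ ‖iv z - T • h‖) ∧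
  ∀ (T : ℝ) (z : Fin n → ℤ), z ≠ 0 → 0 ≤ T → T ≤ 1 → γ ≤ ‖iv z - T • h‖

private theorem aut_ae {n : ℕ} (L : E n → E n → ℝ → ℝ) (κ K : ℝ) (hL : Growth L κ K) (hn : 2 ≤ n)
    (ha : Aut L) :
    ∀ᵐ c : E n, Pinched (Pool.Agent.H68.HD.alpha L) c →
      ENNReal.ofReal ((3 * n - 1) / (n + 1)) ≤ dimH (Pool.Agent.H68.HD.aubry L c) := by
  obtain ⟨m, rfl⟩ : ∃ m, n = m + 1 := ⟨n - 1, by omega⟩
  have h3 := Pool.Agent.H68.HDA.pin_main_aut (by omega) hL ha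
  have h4 : ((3 * ((m + 1 : ℕ) : ℝ) - 1) / (((m + 1 : ℕ) : ℝ) + 1)) =
      (3 * (m : ℝ) + 2) / ((m : ℝ) + 2) := by
    push_cast
    congr 1 <;> ring
  rw [h4]
  exact h3

theorem result {n : ℕ} (L : E n → E n → ℝ → ℝ) (hL : Ton L) :
    (∀ᵐ c : E n, Pinched (alpha L) c → ENNReal.ofReal (2 * n / (n + 2)) ≤ dimH (aubry L c)) ∧
    (2 ≤ n → Aut L → ∀ᵐ c : E n, Pinched (alpha L) c →
      ENNReal.ofReal ((3 * n - 1) / (n + 1)) ≤ dimH (aubry L c)) ∧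
    (ContDiff ℝ 2 (alpha L) → (∀ c p : E n, p ≠ 0 → 0 < fderiv ℝ (fderiv ℝ (alpha L)) c p p) →
      ∀ c, Pinched (alpha L) c) ∧
    (∀ (c h : E n) (K' p₀ γ τ : ℝ), 0 < p₀ → 0 < γ → 0 ≤ τ → QuadAbove (alpha L) c h K' p₀ →
      (Dioph h γ τ → ENNReal.ofReal (2 / (1 + 2 * τ)) ≤ dimH (aubry L c)) ∧
      (Aut L → DiophLine h γ τ → ENNReal.ofReal (1 + 2 / (1 + 2 * τ)) ≤ dimH (aubry L c))) := by
  have e1 : alpha L = Pool.Agent.H68.HD.alpha L := funext (Pool.Agent.H68.TM.alpha_eq hL)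
  have e2 : aubry L = Pool.Agent.H68.HD.aubry L := funext (Pool.Agent.H68.TM.aubry_eq hL)
  rw [e1, e2]
  have hloc := Pool.Agent.H68.TG.loc_of3 (L := L) (Or.inr (Or.inr hL))
  refine ⟨Pool.Agent.H68.TO.ae_tr hloc _ fun L' κ K hG _ => Pool.Agent.H68.HDA.pin_main hG,
    fun hn ha => Pool.Agent.H68.TO.ae_tr hloc _ fun L' κ K hG hA => aut_ae L' κ K hG hn (hA ha),
    fun h2 hpos c => Pool.Agent.H68.HDA.pinched_of_c2 h2 c (hpos c),
    fun c h K' p₀ γ τ hp hγ hτ hq => ?_⟩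
  obtain ⟨L', κ, K, hG, hA, heq⟩ := hloc (‖c‖ + 1)
  have hq' := Pool.Agent.H68.TO.quad_tr (fun c' hc' => (heq c' hc').1) le_rfl hq
  have hp' : 0 < min p₀ 1 := lt_min hp one_pos
  rw [(heq c (by linarith)).2]
  refine ⟨fun hd => ?_, fun ha ⟨hh, hd, hd'⟩ => ?_⟩
  · exact Pool.Agent.H68.HD.main1 hG hp' hγ hτ hq' fun k hk z => hd k z hk
  · have hn : 0 < n := by
      rcases Nat.eq_zero_or_pos n with h0 | h0
      · subst h0
        have : h = 0 := Subsingleton.elim _ _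
        rw [this, norm_zero] at hh
        linarith
      · exact h0
    exact Pool.Agent.H68.HDA.main1 hG (hA ha) hn hp' hγ hτ hq' hh hd hd'

end Pool.Agent.Results.MP_34810b_an.HausdorffDimension
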