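import Pool.Agent.H47.B0.M16

/-!
# Strict convexity of the alpha function and time-periodic mechanical systems on the flat torus

For the time-periodic Lagrangians `L(x, v, t) = ⟪G v, v⟫ / 2 - V(x, t)` on `𝕋ⁿ`, for every `n`, Mather's
alpha function is strictly convex if and only if `V` does not depend on `x`, and then all the Aubry
sets are equal to `𝕋ⁿ`.
-/

set_option autoImplicit false

open Set
open scoped RealInnerProductSpace

namespace Pool.Agent.Results.MP_34810b_an.TimePeriodic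

open Pool.Agent.H33.AM

theorem result {n : ℕ} (G : E n →L[ℝ] E n) (hsymm : ∀ v w, ⟪G v, w⟫ = ⟪v, G w⟫)
    (hpos : ∀ v, v ≠ 0 → 0 < ⟪G v, v⟫) (V : E n → ℝ → ℝ)
    (hV : ContDiff ℝ 2 fun z : E n × ℝ => V z.1 z.2)
    (hper : ∀ (x y : E n) (s t : ℝ), pr x = pr y → (s : UnitAddCircle) = (t : UnitAddCircle) →
      V x s = V y t) :
    (StrictConvexOn ℝ univ (alpha fun x v t => ⟪G v, v⟫ / 2 - V x t) ↔
      ∀ x y t, V x t = V y t) ∧
    (StrictConvexOn ℝ univ (alpha fun x v t => ⟪G v, v⟫ / 2 - V x t) →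
      ∀ c, aubry (fun x v t => ⟪G v, v⟫ / 2 - V x t) c = univ) :=
  Pool.Agent.H33.AN.main2 G hsymm hpos V hV hper

end Pool.Agent.Results.MP_34810b_an.TimePeriodic
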